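import Pool.Agent.H30.VM.TargetsG
import Pool.Agent.H92.VG.BS
import Pool.Agent.H3.CI.BST

/-!
# BST: unique decomposition of families of forms (board `vmp_modules`)
-/

set_option autoImplicit false

namespace Pool.Agent.H39.VMP

open MvPolynomial SC Pool.Agent.H27.LV Pool.Agent.H17.VG Pool.Agent.H30.VM Pool.Agent.H92.VG
open Pool.Agent.H17.CI (Tup IlT PQT TxT frmT upT RatT)
open Pool.Agent.H3.CI (det_ne_zero_of_indep eq_of_coeff Ka)

namespace BSTaux

section

variable {K : Type} [Field K] {n : ℕ} {ι : Type} {i₀ : ι} {e : ι → ℕ}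

noncomputable instance instFt [Fintype ι] : Fintype {i : ι // i ≠ i₀} := Fintype.ofFinite _

/-- the parameters: the matrix and scalings -/
abbrev Th (n : ℕ) (ι : Type) (i₀ : ι) : Type :=
  (Fin (n + 1) × Fin (n + 1)) ⊕ {i : ι // i ≠ i₀}

/-- the matrix with parameters `w` -/
def Am (w : Th n ι i₀ → K) : Matrix (Fin (n + 1)) (Fin (n + 1)) K :=
  Matrix.of fun a b => w (Sum.inl (a, b))

open Classical in
/-- the scalings with parameters `w` -/
noncomputable def lw (w : Th n ι i₀ → K) : ι → K := fun i =>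
  if h : i = i₀ then 0 else w (Sum.inr ⟨i, h⟩)

lemma lw_zero (w : Th n ι i₀ → K) : lw w i₀ = 0 := dif_pos rfl

lemma lw_ne (w : Th n ι i₀ → K) (i : ι) (h : i ≠ i₀) : lw w i = w (Sum.inr ⟨i, h⟩) := dif_neg h

/-- the symbol with parameters `w` -/
noncomputable def sy (F : Tup ι K n) (w : Th n ι i₀ → K) : Tup ι K n := fun i =>
  lv (F i) (Am w) + C (lw w i) * F i

open Classical in
/-- the coefficients of the symbols of the parameters -/
noncomputable def NN (F : Tup ι K n) (M : Ka n e) (θ : Th n ι i₀) : K :=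
  Sum.elim (fun p : Fin (n + 1) × Fin (n + 1) =>
      coeff (fs M.2.1) (X p.2 * pderiv p.1 (F M.1)))
    (fun i => if M.1 = i.1 then coeff (fs M.2.1) (F M.1) else 0) θ

lemma sy_homog {F : Tup ι K n} (hF : ∀ i, (F i).IsHomogeneous (e i + 1)) (w : Th n ι i₀ → K)
    (i : ι) : (sy F w i).IsHomogeneous (e i + 1) := by
  unfold sy
  refine (lv_homog (hF i) _).add ?_
  have := (isHomogeneous_C (Fin (n + 1)) (lw w i)).mul (hF i)
  rwa [zero_add] at this

lemma coeff_sy [Fintype ι] (F : Tup ι K n) (w : Th n ι i₀ → K) (M : Ka n e) :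
    coeff (fs M.2.1) (sy F w M.1) = ∑ θ, NN F M θ * w θ := by
  classical
  unfold sy
  rw [coeff_add, coeff_lv, coeff_C_mul, Fintype.sum_sum_type]
  congr 1
  by_cases h : M.1 = i₀
  · have hl : lw w M.1 = 0 := (congrArg (lw w) h).trans (lw_zero w)
    rw [hl, zero_mul]
    symm
    refine Finset.sum_eq_zero fun i _ => ?_
    simp only [NN, Sum.elim_inr]
    rw [if_neg, zero_mul]
    intro h1
    exact i.2 (h1.symm.trans h)
  · rw [lw_ne w M.1 h, Finset.sum_eq_single ⟨M.1, h⟩]
    · simp only [NN, Sum.elim_inr, if_true]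
      rw [mul_comm]
    · intro i _ hi
      simp only [NN, Sum.elim_inr]
      rw [if_neg, zero_mul]
      intro h1
      exact hi (Subtype.ext h1.symm)
    · intro h
      exact absurd (Finset.mem_univ _) h

lemma solve {N : Type} [Fintype N] [DecidableEq N] (M : Matrix N N K) (h : M.det ≠ 0)
    (b : N → K) : ∃ w, M.mulVec w = b :=
  ⟨M⁻¹.mulVec b, by
    rw [Matrix.mulVec_mulVec, Matrix.mul_nonsing_inv _ (isUnit_iff_ne_zero.2 h),
      Matrix.one_mulVec]⟩

end

end BSTaux

open BSTaux in
/-- BST -/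
theorem pf_BST : T_BST := by
  classical
  intro k _ _ n ι _ i₀ e c hinj
  have hFh : ∀ i, (frmT c i : MvPolynomial (Fin (n + 1)) k).IsHomogeneous (e i + 1) :=
    fun i => frm_homog _
  let v : Th n ι i₀ ⊕ Ka n e → (Ka n e → k) :=
    Sum.elim (fun θ M => NN (frmT c) M θ) (fun M => Pi.single M 1)
  have hN : LinearIndependent k (fun (θ : Th n ι i₀) (M : Ka n e) => NN (frmT c) M θ) := by
    rw [Fintype.linearIndependent_iff]
    intro w hw
    have h1 : ∀ i, sy (i₀ := i₀) (frmT c) w i = 0 := by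
      intro i
      refine eq_of_coeff (sy_homog hFh w i) (isHomogeneous_zero _ _ _) fun M => ?_
      have h2 := coeff_sy (frmT c) w (⟨i, M⟩ : Ka n e)
      rw [coeff_zero]
      refine h2.trans ?_
      have h3 := congrFun hw (⟨i, M⟩ : Ka n e)
      rw [Finset.sum_apply] at h3
      refine Eq.trans ?_ h3
      refine Finset.sum_congr rfl fun θ _ => ?_
      rw [Pi.smul_apply, smul_eq_mul, mul_comm]
    obtain ⟨h2, h3⟩ := hinj (Am w) (lw w) (lw_zero w) h1
    intro θ
    rcases θ with ⟨a, b⟩ | i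
    · exact congrFun (congrFun h2 a) b
    · have h4 := congrFun h3 i.1
      rw [lw_ne w i.1 i.2] at h4
      exact h4
  have hind : LinearIndepOn k v (Set.range (Sum.inl : Th n ι i₀ → Th n ι i₀ ⊕ Ka n e)) := by
    rw [linearIndepOn_range_iff Sum.inl_injective]
    exact hN
  obtain ⟨B, -, hB1, hB2, hB3⟩ := exists_linearIndepOn_extension hind (Set.subset_univ _)
  let g : Th n ι i₀ ⊕ {M : Ka n e // Sum.inr M ∈ B} → Th n ι i₀ ⊕ Ka n e :=
    Sum.map id (fun M => M.1)
  have hg : Function.Injective g := Function.injective_id.sumMap Subtype.val_injective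
  have hgB : Set.range g = B := by
    ext c
    constructor
    · rintro ⟨θ | M, rfl⟩
      · exact hB1 ⟨θ, rfl⟩
      · exact M.2
    · intro hc
      rcases c with θ | M
      · exact ⟨Sum.inl θ, rfl⟩
      · exact ⟨Sum.inr ⟨M, hc⟩, rfl⟩
  have hli : LinearIndependent k (v ∘ g) := by
    rw [← linearIndepOn_range_iff hg, hgB]
    exact hB3
  have hsp : Submodule.span k (Set.range (v ∘ g)) = ⊤ := by
    rw [Set.range_comp, hgB, eq_top_iff]
    have h1 : Submodule.span k (Set.range v) ≤ Submodule.span k (v '' B) := by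
      rw [Submodule.span_le]
      rw [Set.image_univ] at hB2
      exact hB2
    refine le_trans ?_ h1
    rw [← (Pi.basisFun k (Ka n e)).span_eq, Submodule.span_le]
    rintro _ ⟨M, rfl⟩
    refine Submodule.subset_span ⟨Sum.inr M, ?_⟩
    rw [Pi.basisFun_apply]
    rfl
  have hcard : Fintype.card (Th n ι i₀ ⊕ {M : Ka n e // Sum.inr M ∈ B}) =
      Fintype.card (Ka n e) := by
    have h1 := finrank_span_eq_card hli
    rw [hsp, finrank_top, Module.finrank_fintype_fun_eq_card] at h1
    exact h1.symm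
  let e0 := Fintype.equivOfCardEq hcard
  let Mk : Matrix (Ka n e) (Th n ι i₀ ⊕ {M : Ka n e // Sum.inr M ∈ B}) k :=
    Matrix.of fun r c => v (g c) r
  have hdet : (Mk.submatrix e0 id).det ≠ 0 := det_ne_zero_of_indep e0 Mk hli
  refine ⟨fun M => Sum.inr M ∈ B, fun K _ _ => ?_⟩
  set F : Tup ι K n := upT K (frmT c) with hF
  have hFK : ∀ i, (F i).IsHomogeneous (e i + 1) := fun i => (hFh i).map _
  let MK : Matrix (Ka n e) (Th n ι i₀ ⊕ {M : Ka n e // Sum.inr M ∈ B}) K :=
    Mk.map (algebraMap k K)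
  have hdetK : (MK.submatrix e0 id).det ≠ 0 := by
    have h1 : MK.submatrix e0 id = (Mk.submatrix e0 id).map (algebraMap k K) := rfl
    rw [h1, ← RingHom.mapMatrix_apply, ← RingHom.map_det, Ne, map_eq_zero]
    exact hdet
  have hNK : ∀ (M : Ka n e) (θ : Th n ι i₀), MK M (Sum.inl θ) = NN F M θ := by
    intro M θ
    show algebraMap k K (NN (frmT c) M θ) = NN F M θ
    rcases θ with p | i
    · show algebraMap k K (coeff (fs M.2.1) (X p.2 * pderiv p.1 (frmT c M.1))) =
        coeff (fs M.2.1) (X p.2 * pderiv p.1 (F M.1))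
      rw [hF]
      show _ = coeff (fs M.2.1) (X p.2 * pderiv p.1 (up K (frmT c M.1)))
      unfold up
      rw [pderiv_map, ← coeff_map, map_mul, map_X]
    · show algebraMap k K (if M.1 = i.1 then coeff (fs M.2.1) (frmT c M.1) else 0) =
        if M.1 = i.1 then coeff (fs M.2.1) (F M.1) else 0
      split_ifs
      · rw [← coeff_map]
        rfl
      · exact map_zero _
  have hPK : ∀ (M : Ka n e) (P : {M : Ka n e // Sum.inr M ∈ B}),
      MK M (Sum.inr P) = if M = P.1 then 1 else 0 := by
    intro M P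
    show algebraMap k K ((Pi.single P.1 1 : Ka n e → k) M) = _
    rw [Pi.single_apply]
    split_ifs
    · exact map_one _
    · exact map_zero _
  -- the value of the matrix
  have hmv : ∀ (w : Th n ι i₀ ⊕ {M : Ka n e // Sum.inr M ∈ B} → K) (M : Ka n e),
      MK.mulVec w M = coeff (fs M.2.1) (sy F (fun θ => w (Sum.inl θ)) M.1) +
        if h : Sum.inr M ∈ B then w (Sum.inr ⟨M, h⟩) else 0 := by
    intro w M
    rw [coeff_sy]
    show ∑ c, MK M c * w c = _
    rw [Fintype.sum_sum_type]
    congr 1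
    · exact Finset.sum_congr rfl fun θ _ => by rw [hNK]
    · by_cases h : Sum.inr M ∈ B
      · rw [dif_pos h, Finset.sum_eq_single ⟨M, h⟩]
        · rw [hPK, if_pos rfl, one_mul]
        · intro P _ hP
          rw [hPK, if_neg, zero_mul]
          intro h1
          exact hP (Subtype.ext h1.symm)
        · intro h1
          exact absurd (Finset.mem_univ _) h1
      · rw [dif_neg h]
        refine Finset.sum_eq_zero fun P _ => ?_
        rw [hPK, if_neg, zero_mul]
        intro h1
        exact h (h1 ▸ P.2)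
  refine ⟨fun G hG => ?_, fun g' A l hg' hA h0 => ?_⟩
  · -- existence
    obtain ⟨b, hb⟩ : ∃ b : Ka n e → K, b = fun M => coeff (fs M.2.1) (G M.1) := ⟨_, rfl⟩
    obtain ⟨w, hw⟩ : ∃ w, MK.mulVec w = b := by
      obtain ⟨w, h1⟩ := solve (MK.submatrix e0 id) hdetK (b ∘ e0)
      refine ⟨w, ?_⟩
      funext M
      have h2 := congrFun h1 (e0.symm M)
      have h3 : (b ∘ e0) (e0.symm M) = b M := by
        rw [Function.comp_apply, Equiv.apply_symm_apply]
      rw [h3] at h2
      rw [← h2]
      show ∑ c, MK M c * _ = ∑ c, MK (e0 (e0.symm M)) c * _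
      rw [Equiv.apply_symm_apply]
    refine ⟨fun M => if h : Sum.inr M ∈ B then w (Sum.inr ⟨M, h⟩) else 0,
      Am fun θ => w (Sum.inl θ), lw fun θ => w (Sum.inl θ), ?_, lw_zero _, ?_⟩
    · intro M hM
      exact dif_neg hM
    · intro i
      show G i = frmT _ i + lv (F i) _ + _ * F i
      rw [add_assoc]
      refine eq_of_coeff (hG i) ((frm_homog _).add (sy_homog hFK _ i)) fun M => ?_
      have h1 := congrFun hw (⟨i, M⟩ : Ka n e)
      rw [hmv, hb] at h1
      rw [coeff_add]
      show _ = coeff (fs M.1) (frm _) + coeff (fs M.1) (sy F (fun θ => w (Sum.inl θ)) i)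
      rw [coeff_frm]
      exact h1.symm.trans (add_comm _ _)
  · -- uniqueness
    let w : Th n ι i₀ ⊕ {M : Ka n e // Sum.inr M ∈ B} → K :=
      Sum.elim (Sum.elim (fun p => A p.1 p.2) (fun i => l i.1)) (fun M => g' M.1)
    have hAm : Am (fun θ => w (Sum.inl θ)) = A := rfl
    have hlw : lw (fun θ => w (Sum.inl θ)) = l := by
      funext i
      by_cases h : i = i₀
      · rw [h, lw_zero, hA]
      · rw [lw_ne _ i h]
        rfl
    have hw : MK.mulVec w = 0 := by
      funext M
      rw [hmv]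
      have h1 := congrArg (coeff (fs M.2.1)) (h0 M.1)
      have h2 : (if h : Sum.inr M ∈ B then w (Sum.inr ⟨M, h⟩) else 0) = g' M := by
        split_ifs with h
        · rfl
        · exact (hg' M h).symm
      rw [h2, Pi.zero_apply]
      rw [coeff_zero] at h1
      rw [← h1]
      show coeff _ (lv (F M.1) (Am fun θ => w (Sum.inl θ)) +
          C (lw (fun θ => w (Sum.inl θ)) M.1) * F M.1) + g' M =
        coeff _ (frmT g' M.1 + lv (F M.1) A + C (l M.1) * F M.1)
      rw [hAm, hlw, add_assoc, coeff_add _ (frmT g' M.1), add_comm]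
      congr 1
      exact (coeff_frm (fun M' => g' ⟨M.1, M'⟩) M.2).symm
    have hw0 : w = 0 := by
      have h1 : (MK.submatrix e0 id).mulVec w = 0 := by
        funext c
        exact congrFun hw (e0 c)
      exact Matrix.eq_zero_of_mulVec_eq_zero hdetK h1
    refine ⟨?_, ?_, ?_⟩
    · funext M
      by_cases h : Sum.inr M ∈ B
      · exact congrFun hw0 (Sum.inr ⟨M, h⟩)
      · exact hg' M h
    · ext i j
      exact congrFun hw0 (Sum.inl (Sum.inl (i, j)))
    · funext i
      by_cases h : i = i₀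
      · rw [h, hA]
        rfl
      · exact congrFun hw0 (Sum.inl (Sum.inr ⟨i, h⟩))

end Pool.Agent.H39.VMP
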