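import Pool.Agent.H30.VM.TargetsB
import Pool.Agent.H56.CI.PST
import Pool.Agent.H66.VG.IM

/-!
# MP_70ba79_ag: row IMT of the board `vmp_modules`
-/

set_option autoImplicit false

namespace Pool.Agent.H39.VMP

open MvPolynomial SC Pool.Agent.H27.LV Pool.Agent.H17.VG Pool.Agent.H30.VM
open Pool.Agent.H17.CI (Tup IlT PQT TxT frmT upT RatT)
open Pool.Agent.H66.VG (opFL opFL_apply opVL opVL_apply resL resL_apply dirL dirL_apply
  mem_degreeLT key finrank_degreeLT finrank_pair opV_D opF_D lin_homog)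
open Pool.Agent.H56.CI (piE pi_fd pi_finrank symL symL_apply)

private theorem mem_UtT {R K : Type} [Field R] [Field K] [Algebra R K] {n : ℕ} {ι : Type}
    {i₀ : ι} {F : Tup ι K n} {x : Fin (n + 1) → K} {W : Submodule K (Tup ι K n)}
    {τ : Op R K n} {l : ι → K} {G : Tup ι K n} (hG : G ∈ W) (h : Sym i₀ F τ l G) :
    opV τ x ∈ UtT R i₀ F x W := Submodule.subset_span (Or.inl ⟨τ, l, G, hG, h, rfl⟩)

private theorem self_mem_UtT {R K : Type} [Field R] [Field K] [Algebra R K] {n : ℕ} {ι : Type}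
    (i₀ : ι) (F : Tup ι K n) (x : Fin (n + 1) → K) (W : Submodule K (Tup ι K n)) :
    x ∈ UtT R i₀ F x W := Submodule.subset_span (Or.inr rfl)

theorem pf_IMT (hOP : Pool.Agent.H17.VG.T_OP) (hRS : Pool.Agent.H17.VG.T_RS)
    (hRO : Pool.Agent.H17.VG.T_RO) (hLF : Pool.Agent.H17.VG.T_LF) : T_IMT := by
  intro R K _ _ _ _ n ι _ i₀ e F D Z x y η hS hP hxy hη Y hYf hY
  have hYfd : FiniteDimensional K Y := hYf
  let S1 : Submodule K (Op R K n × (ι → K)) :=
    { carrier := {v | v.2 i₀ = 0 ∧ ∀ i, symL hOP F i v ∈ Il (e i) x y}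
      zero_mem' := by
        refine ⟨rfl, fun i => ?_⟩
        rw [map_zero]
        exact Submodule.zero_mem _
      add_mem' := by
        rintro v w ⟨h1, h2⟩ ⟨k1, k2⟩
        refine ⟨?_, fun i => ?_⟩
        · show v.2 i₀ + w.2 i₀ = 0
          rw [h1, k1, add_zero]
        · rw [map_add]
          exact Submodule.add_mem _ (h2 i) (k2 i)
      smul_mem' := by
        rintro c v ⟨h1, h2⟩
        refine ⟨?_, fun i => ?_⟩
        · show c * v.2 i₀ = 0
          rw [h1, mul_zero]
        · rw [map_smul]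
          exact Submodule.smul_mem _ _ (h2 i) }
  have hsym : ∀ v : Op R K n × (ι → K), v.2 i₀ = 0 →
      Sym i₀ F v.1 v.2 fun i => symL hOP F i v :=
    fun v hv => ⟨hv, fun i => (symL_apply hOP F i v).symm⟩
  have hIl : ∀ v : S1, (fun i => symL hOP F i v.1) ∈ IlT e x y := fun v i _ => v.2.2 i
  let α : S1 →ₗ[K] (Fin (n + 1) → K) := opVL hOP x ∘ₗ LinearMap.fst K _ _ ∘ₗ S1.subtype
  let β : S1 →ₗ[K] (ι → Polynomial K) :=
    LinearMap.pi fun i => resL x y ∘ₗ dirL η ∘ₗ symL hOP F i ∘ₗ S1.subtype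
  have hα : ∀ v : S1, α v = opV v.1.1 x := fun v => rfl
  have hβ : ∀ v : S1, β v = fun i => res x y (dir η (symL hOP F i v.1)) := by
    intro v
    funext i
    simp only [β, LinearMap.pi_apply, LinearMap.comp_apply, Submodule.subtype_apply, dirL_apply,
      resL_apply]
  have hfd := pi_fd (fun i => Polynomial.degreeLT K (e i + 1)) (fun i => inferInstance)
  have hDsym : Sym i₀ F ((D, 0) : Op R K n) 0 0 := by
    refine ⟨rfl, fun i => ?_⟩
    rw [opF_D, hS.base i]
    simp
  have hDx : (fun i => D (x i)) ∈ UtT R i₀ F x (IlT e x y) := by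
    have := mem_UtT (x := x) (zero_mem (IlT e x y)) hDsym
    rwa [opV_D] at this
  have hNU : Submodule.span K ({x, fun i => D (x i)} : Set (Fin (n + 1) → K)) ≤
      UtT R i₀ F x (IlT e x y) := by
    rw [Submodule.span_le]
    rintro w (rfl | rfl)
    · exact self_mem_UtT i₀ F _ _
    · exact hDx
  have h := key α β (UtT R i₀ F x (IlT e x y))
    (Submodule.span K ({x, fun i => D (x i)} : Set (Fin (n + 1) → K))) Y
    (Submodule.pi Set.univ fun i => Polynomial.degreeLT K (e i + 1)) hNU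
    (fun v => by
      rw [hα]
      exact mem_UtT (hIl v) (hsym v.1 v.2.1)) (by
      intro v hv
      rw [hα] at hv
      rw [hβ]
      obtain ⟨a, b, hab⟩ := Submodule.mem_span_pair.1 hv
      obtain ⟨v', hv'⟩ : ∃ v' : Op R K n × (ι → K), v' = v.1 - b • (((D, 0) : Op R K n), 0) :=
        ⟨_, rfl⟩
      have g1 : v'.2 i₀ = 0 := by
        rw [hv']
        show v.1.2 i₀ - b * (0 : K) = 0
        rw [v.2.1, mul_zero, sub_zero]
      have g2 : (fun i => symL hOP F i v') = fun i => symL hOP F i v.1 := by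
        funext i
        rw [hv', map_sub, map_smul, symL_apply hOP F i (((D, 0) : Op R K n), 0), opF_D, hS.base i]
        simp
      have g3 : opV v'.1 x = a • x := by
        have g4 : opV v'.1 x = opVL hOP x (v.1.1 - b • ((D, 0) : Op R K n)) := by
          rw [hv']
          rfl
        rw [g4, map_sub, map_smul, opVL_apply, opVL_apply, opV_D, ← hab]
        simp
      have g5 := hsym v' g1
      rw [g2] at g5
      exact hY _ (hIl v) v'.1 v'.2 a g5 g3) (by
      intro p hp
      have hp' : ∀ i, (p i).natDegree ≤ e i := fun i => mem_degreeLT.1 (hp i (Set.mem_univ i))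
      choose Q hQ hQp using fun i => hRO K n (e i) x y hxy (p i) (hp' i)
      obtain ⟨ξ, h1, h2, h3⟩ := (hLF K n x y hxy).2.2 η hη
      have hG : ∀ i, (lin ξ * Q i).IsHomogeneous (e i + 1) := by
        intro i
        have h0 := (lin_homog ξ).mul (hQ i)
        rwa [add_comm 1 (e i)] at h0
      obtain ⟨τ, l, hτ⟩ := hS.surj (fun i => lin ξ * Q i) hG
      have hs : ∀ i, symL hOP F i (τ, l) = lin ξ * Q i := by
        intro i
        rw [symL_apply]
        exact hτ.2 i
      refine ⟨⟨(τ, l), hτ.1, fun i => ?_⟩, ?_⟩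
      · rw [hs i]
        exact Submodule.subset_span ⟨ξ, Q i, h1, h2, hQ i, rfl⟩
      · rw [hβ]
        funext i
        rw [hs i]
        obtain ⟨-, -, -, -, e5, e6, -⟩ := hRS K n (e i) (lin ξ) (Q i) η 0 ξ x y 0 0
        obtain ⟨a1, -, -, -, -⟩ := hRS K n (e i) (dir η (lin ξ) * Q i) (lin ξ * dir η (Q i))
          η 0 ξ x y 0 0
        obtain ⟨-, b2, b3, -, -⟩ := hRS K n (e i) (dir η (lin ξ)) (Q i) η 0 ξ x y
          (∑ i, ξ i * η i) 0
        obtain ⟨-, c2, -, c4, -⟩ := hRS K n (e i) (lin ξ) (dir η (Q i)) η 0 ξ x y 0 0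
        rw [e5, a1, b2, c2, c4, h1, h2, e6, b3, h3, hQp i]
        simp)
  rw [pi_finrank _ (fun i => inferInstance), finrank_pair hP.dx] at h
  simp only [finrank_degreeLT] at h
  omega

end Pool.Agent.H39.VMP
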